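import Mathlib
import Pool.Agent.Helper22.AC.E3

/-!
# EM-8: the eighth mean over the radii of the supremum of the error over all centres

`eight_mean`: from the measure bounds (all levels `R^θ`, `1/2 < θ < 2/3`) and one pointwise bound with an exponent `κ < 2/3`.
-/

open MeasureTheory Real Set Filter Topology

set_option autoImplicit false

namespace Pool.Agent.Helper53.EM

/-- the eighth power of the supremum over the centres -/
noncomputable def sup8 (E : ℝ × ℝ → ℝ → ℝ) (R : ℝ) : ENNReal := (⨆ c : ℝ × ℝ, ENNReal.ofReal |E c R|) ^ 8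

lemma sup8_le {E : ℝ × ℝ → ℝ → ℝ} {R y : ℝ} (hy : 0 ≤ y) (h : ∀ c, |E c R| ≤ y) : sup8 E R ≤ ENNReal.ofReal (y ^ 8) := by
  unfold sup8
  rw [ENNReal.ofReal_pow hy]
  exact pow_le_pow_left' (iSup_le fun c => ENNReal.ofReal_le_ofReal (h c)) 8

lemma sup8_mono {E E' : ℝ × ℝ → ℝ → ℝ} {R : ℝ} (h : ∀ c, ∃ c', |E c R| ≤ |E' c' R|) : sup8 E R ≤ sup8 E' R := by
  unfold sup8
  refine pow_le_pow_left' (iSup_le fun c => ?_) 8
  obtain ⟨c', hc'⟩ := h c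
  exact (ENNReal.ofReal_le_ofReal hc').trans (le_iSup (fun c => ENNReal.ofReal |E' c R|) c')

/-- from dyadic intervals to `[1, X]` -/
private theorem dyad53 {F : ℝ → ENNReal} {C b : ℝ} (hC : 0 ≤ C) (hb : 1 ≤ b)
    (h : ∀ p : ℕ, ∫⁻ R in Icc ((2 : ℝ) ^ p) (2 * (2 : ℝ) ^ p), F R ≤ ENNReal.ofReal (C * ((2 : ℝ) ^ p) ^ b)) {X : ℝ} (hX : 1 ≤ X) :
    ∫⁻ R in Icc 1 X, F R ≤ ENNReal.ofReal (C * 2 ^ b * X ^ b) := by
  have h1 : ∀ P : ℕ, ∫⁻ R in Icc 1 ((2 : ℝ) ^ P), F R ≤ ENNReal.ofReal (C * ((2 : ℝ) ^ P) ^ b) := by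
    intro P
    induction P with
    | zero =>
      rw [pow_zero, Icc_self, Measure.restrict_singleton, volume_singleton, zero_smul, lintegral_zero_measure]
      exact bot_le
    | succ P ih =>
      have h2 : Icc 1 ((2 : ℝ) ^ (P + 1)) ⊆ Icc 1 ((2 : ℝ) ^ P) ∪ Icc ((2 : ℝ) ^ P) (2 * (2 : ℝ) ^ P) := by
        intro x hx
        rw [pow_succ, mul_comm] at hx
        rcases le_total x ((2 : ℝ) ^ P) with h3 | h3
        · exact Or.inl ⟨hx.1, h3⟩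
        · exact Or.inr ⟨h3, hx.2⟩
      have h4 : (2 : ℝ) ≤ 2 ^ b := by
        calc (2 : ℝ) = 2 ^ (1 : ℝ) := (rpow_one 2).symm
          _ ≤ 2 ^ b := rpow_le_rpow_of_exponent_le (by norm_num) hb
      have h5 : 0 ≤ C * ((2 : ℝ) ^ P) ^ b := by positivity
      calc ∫⁻ R in Icc 1 ((2 : ℝ) ^ (P + 1)), F R ≤ ∫⁻ R in Icc 1 ((2 : ℝ) ^ P) ∪ Icc ((2 : ℝ) ^ P) (2 * (2 : ℝ) ^ P), F R :=
            lintegral_mono_set h2
        _ ≤ (∫⁻ R in Icc 1 ((2 : ℝ) ^ P), F R) + ∫⁻ R in Icc ((2 : ℝ) ^ P) (2 * (2 : ℝ) ^ P), F R := lintegral_union_le _ _ _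
        _ ≤ ENNReal.ofReal (C * ((2 : ℝ) ^ P) ^ b) + ENNReal.ofReal (C * ((2 : ℝ) ^ P) ^ b) := add_le_add ih (h P)
        _ = ENNReal.ofReal (C * ((2 : ℝ) ^ P) ^ b + C * ((2 : ℝ) ^ P) ^ b) := (ENNReal.ofReal_add h5 h5).symm
        _ ≤ ENNReal.ofReal (C * ((2 : ℝ) ^ (P + 1)) ^ b) := by
            refine ENNReal.ofReal_le_ofReal ?_
            rw [pow_succ, mul_rpow (by positivity) (by norm_num)]
            have h6 := mul_le_mul_of_nonneg_left h4 h5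
            linarith
  obtain ⟨P, hp1, hp2⟩ := exists_nat_pow_near hX (show (1 : ℝ) < 2 by norm_num)
  have h2 : Icc 1 X ⊆ Icc 1 ((2 : ℝ) ^ (P + 1)) := Icc_subset_Icc le_rfl hp2.le
  refine (lintegral_mono_set h2).trans ((h1 (P + 1)).trans (ENNReal.ofReal_le_ofReal ?_))
  rw [mul_assoc, ← mul_rpow (by norm_num) (by linarith)]
  refine mul_le_mul_of_nonneg_left (rpow_le_rpow (by positivity) ?_ (by linarith)) hC
  rw [pow_succ]
  linarith

/-- a pointwise bound by levels -/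
private theorem lev53 {E : ℝ × ℝ → ℝ → ℝ} {X R D : ℝ} (θ : ℕ → ℝ) (hX : 0 < X) (hR0 : 0 < R) (hR : R ≤ 2 * X) (hD : 1 ≤ D)
    (hθ : ∀ j, 0 ≤ θ j) (n : ℕ) (h : ∀ c, |E c R| ≤ D * (2 * X) ^ θ n) :
    sup8 E R ≤ ENNReal.ofReal ((D * (2 * X) ^ θ 0) ^ 8) +
      ∑ j ∈ Finset.range n, {R : ℝ | ∃ c : ℝ × ℝ, R ^ θ j < |E c R|}.indicator
        (fun _ => ENNReal.ofReal ((D * (2 * X) ^ θ (j + 1)) ^ 8)) R := by
  have h0 : ∀ j, 0 ≤ D * (2 * X) ^ θ j := fun j => by positivity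
  induction n with
  | zero =>
    rw [Finset.range_zero, Finset.sum_empty, add_zero]
    exact sup8_le (h0 0) h
  | succ n ih =>
    rw [Finset.sum_range_succ]
    by_cases hc : ∃ c : ℝ × ℝ, R ^ θ n < |E c R|
    · have h1 : R ∈ {R : ℝ | ∃ c : ℝ × ℝ, R ^ θ n < |E c R|} := hc
      rw [indicator_of_mem h1]
      exact (sup8_le (h0 (n + 1)) h).trans (le_add_left (le_add_left le_rfl))
    · have h1 : R ∉ {R : ℝ | ∃ c : ℝ × ℝ, R ^ θ n < |E c R|} := hc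
      rw [indicator_of_notMem h1, add_zero]
      refine ih fun c => ?_
      have h2 : |E c R| ≤ R ^ θ n := not_lt.1 fun h => hc ⟨c, h⟩
      have h3 : R ^ θ n ≤ (2 * X) ^ θ n := rpow_le_rpow hR0.le hR (hθ n)
      have h4 : 0 ≤ (2 * X) ^ θ n := by positivity
      calc |E c R| ≤ 1 * (2 * X) ^ θ n := by linarith
        _ ≤ D * (2 * X) ^ θ n := mul_le_mul_of_nonneg_right hD h4

/-- the mean over a dyadic interval -/
private theorem dyadic53 {E : ℝ × ℝ → ℝ → ℝ} {κ : ℝ} (hκ0 : 1 / 2 ≤ κ) (hκ : κ < 2 / 3)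
    (hsup : ∃ C : ℝ, ∀ R : ℝ, 1 ≤ R → ∀ c : ℝ × ℝ, |E c R| ≤ C * R ^ κ)
    (hmeas : ∀ θ ε : ℝ, 1 / 2 < θ → θ < 2 / 3 → 0 < ε → ∃ C : ℝ, ∀ X : ℝ, 1 ≤ X →
      volume {R : ℝ | R ∈ Icc X (2 * X) ∧ ∃ c : ℝ × ℝ, R ^ θ < |E c R|} ≤ ENNReal.ofReal (C * X ^ (5 - 8 * θ + ε)))
    {ε : ℝ} (hε : 0 < ε) : ∃ C : ℝ, 0 ≤ C ∧ ∀ X : ℝ, 1 ≤ X →
      ∫⁻ R in Icc X (2 * X), sup8 E R ≤ ENNReal.ofReal (C * X ^ (5 + ε)) := by
  obtain ⟨C₁, hC₁⟩ := hsup
  obtain ⟨D, hD⟩ : ∃ D : ℝ, D = max 1 C₁ := ⟨_, rfl⟩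
  have hD1 : 1 ≤ D := by rw [hD]; exact le_max_left _ _
  have hD2 : C₁ ≤ D := by rw [hD]; exact le_max_right _ _
  obtain ⟨δ, hδ⟩ : ∃ δ : ℝ, δ = min (ε / 9) (2 / 3 - κ) := ⟨_, rfl⟩
  have hδ0 : 0 < δ := by
    rw [hδ]
    exact lt_min (by linarith) (by linarith)
  have hδ1 : 9 * δ ≤ ε := by
    have : δ ≤ ε / 9 := by rw [hδ]; exact min_le_left _ _
    linarith
  have hδ2 : δ ≤ 2 / 3 - κ := by rw [hδ]; exact min_le_right _ _
  obtain ⟨n, hn⟩ : ∃ n : ℕ, n = ⌈(κ - 1 / 2) / δ⌉₊ := ⟨_, rfl⟩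
  have hn1 : κ - 1 / 2 ≤ n * δ := by
    have h1 := Nat.le_ceil ((κ - 1 / 2) / δ)
    rw [← hn, div_le_iff₀ hδ0] at h1
    exact h1
  have hn2 : n * δ < κ - 1 / 2 + δ := by
    have h1 := Nat.ceil_lt_add_one (a := (κ - 1 / 2) / δ) (div_nonneg (by linarith) hδ0.le)
    rw [← hn] at h1
    have h2 := mul_lt_mul_of_pos_right h1 hδ0
    rw [add_mul, div_mul_cancel₀ _ hδ0.ne', one_mul] at h2
    exact h2
  obtain ⟨θ, hθ⟩ : ∃ θ : ℕ → ℝ, θ = fun j : ℕ => 1 / 2 + ((j : ℝ) + 1) * δ := ⟨_, rfl⟩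
  have hθv : ∀ j, θ j = 1 / 2 + ((j : ℝ) + 1) * δ := fun j => by rw [hθ]
  have hθ0 : ∀ j, 1 / 2 < θ j := fun j => by
    rw [hθv]
    have : 0 < ((j : ℝ) + 1) * δ := by positivity
    linarith
  have hθ1 : ∀ j, j < n → θ j < 2 / 3 := fun j hj => by
    rw [hθv]
    have h1 : ((j : ℝ) + 1) ≤ n := by exact_mod_cast hj
    have h2 := mul_le_mul_of_nonneg_right h1 hδ0.le
    linarith
  have hθs : ∀ j, θ (j + 1) = θ j + δ := fun j => by
    rw [hθv, hθv]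
    push_cast
    ring
  have hθn : κ ≤ θ n := by
    rw [hθv]
    linarith
  have hex : ∀ j, ∃ C : ℝ, j < n → ∀ X : ℝ, 1 ≤ X →
      volume {R : ℝ | R ∈ Icc X (2 * X) ∧ ∃ c : ℝ × ℝ, R ^ θ j < |E c R|} ≤ ENNReal.ofReal (C * X ^ (5 - 8 * θ j + δ)) := by
    intro j
    by_cases hj : j < n
    · obtain ⟨C, hC⟩ := hmeas (θ j) δ (hθ0 j) (hθ1 j hj) hδ0
      exact ⟨C, fun _ => hC⟩
    · exact ⟨0, fun h => absurd h hj⟩
  choose Cf hCf using hex
  refine ⟨D ^ 8 * 2 ^ 14 * (1 + ∑ j ∈ Finset.range n, |Cf j|), by positivity, fun X hX => ?_⟩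
  have hX0 : 0 < X := by linarith
  obtain ⟨V, hV⟩ : ∃ V : ℕ → Set ℝ, V = fun j => toMeasurable volume {R : ℝ | R ∈ Icc X (2 * X) ∧ ∃ c : ℝ × ℝ, R ^ θ j < |E c R|} :=
    ⟨_, rfl⟩
  have hVm : ∀ j, MeasurableSet (V j) := fun j => by rw [hV]; exact measurableSet_toMeasurable _ _
  obtain ⟨d, hd⟩ : ∃ d : ℕ → ℝ, d = fun j => (D * (2 * X) ^ θ j) ^ 8 := ⟨_, rfl⟩
  have hd0 : ∀ j, 0 ≤ d j := fun j => by rw [hd]; positivity
  have hpt : ∀ R ∈ Icc X (2 * X), sup8 E R ≤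
      ENNReal.ofReal (d 0) + ∑ j ∈ Finset.range n, (V j).indicator (fun _ => ENNReal.ofReal (d (j + 1))) R := by
    intro R hR
    have hR0 : 0 < R := by linarith [hR.1]
    have hR1 : 1 ≤ R := by linarith [hR.1]
    have h1 : ∀ c, |E c R| ≤ D * (2 * X) ^ θ n := by
      intro c
      calc |E c R| ≤ C₁ * R ^ κ := hC₁ R hR1 c
        _ ≤ D * R ^ κ := mul_le_mul_of_nonneg_right hD2 (by positivity)
        _ ≤ D * R ^ θ n := mul_le_mul_of_nonneg_left (rpow_le_rpow_of_exponent_le hR1 hθn) (by linarith)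
        _ ≤ D * (2 * X) ^ θ n := mul_le_mul_of_nonneg_left (rpow_le_rpow hR0.le hR.2 (by linarith [hθ0 n])) (by linarith)
    have h2 := lev53 θ hX0 hR0 hR.2 hD1 (fun j => by linarith [hθ0 j]) n h1
    refine h2.trans ?_
    rw [hd]
    refine add_le_add le_rfl (Finset.sum_le_sum fun j _ => ?_)
    by_cases hc : ∃ c : ℝ × ℝ, R ^ θ j < |E c R|
    · have h3 : R ∈ {R : ℝ | ∃ c : ℝ × ℝ, R ^ θ j < |E c R|} := hc
      have h4 : R ∈ V j := by
        rw [hV]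
        exact subset_toMeasurable _ _ ⟨hR, hc⟩
      rw [indicator_of_mem h3, indicator_of_mem h4]
    · have h3 : R ∉ {R : ℝ | ∃ c : ℝ × ℝ, R ^ θ j < |E c R|} := hc
      rw [indicator_of_notMem h3]
      exact zero_le
  have hvol : ∀ j ∈ Finset.range n, volume (V j) ≤ ENNReal.ofReal (|Cf j| * X ^ (5 - 8 * θ j + δ)) := by
    intro j hj
    rw [Finset.mem_range] at hj
    rw [hV]
    simp only
    rw [measure_toMeasurable]
    refine (hCf j hj X hX).trans (ENNReal.ofReal_le_ofReal ?_)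
    exact mul_le_mul_of_nonneg_right (le_abs_self _) (by positivity)
  -- the levels
  have hdj : ∀ j, d j = D ^ 8 * (2 ^ (8 * θ j) * X ^ (8 * θ j)) := by
    intro j
    rw [hd]
    simp only
    rw [mul_pow, ← Real.rpow_natCast ((2 * X) ^ θ j) 8, ← Real.rpow_mul (by positivity), ← mul_rpow (by norm_num) hX0.le]
    congr 2
    push_cast
    ring
  have h14 : ∀ j, j ≤ n → (2 : ℝ) ^ (8 * θ j) ≤ 2 ^ 14 := by
    intro j hj
    have h1 : ((j : ℝ) + 1) * δ ≤ 1 := by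
      have h2 : (j : ℝ) ≤ n := by exact_mod_cast hj
      have h3 := mul_le_mul_of_nonneg_right h2 hδ0.le
      rw [add_mul, one_mul]
      linarith
    calc (2 : ℝ) ^ (8 * θ j) ≤ 2 ^ (14 : ℝ) := rpow_le_rpow_of_exponent_le (by norm_num) (by rw [hθv]; linarith)
      _ = 2 ^ 14 := by norm_num
  have hXε : ∀ a : ℝ, a ≤ 5 + 9 * δ → X ^ a ≤ X ^ (5 + ε) := fun a ha => rpow_le_rpow_of_exponent_le hX (by linarith)
  calc ∫⁻ R in Icc X (2 * X), sup8 E R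
      ≤ ∫⁻ R in Icc X (2 * X), (ENNReal.ofReal (d 0) +
          ∑ j ∈ Finset.range n, (V j).indicator (fun _ => ENNReal.ofReal (d (j + 1))) R) :=
        setLIntegral_mono' measurableSet_Icc hpt
    _ ≤ ENNReal.ofReal (d 0) * ENNReal.ofReal X +
          ∑ j ∈ Finset.range n, ENNReal.ofReal (d (j + 1)) * volume (V j) := by
        rw [lintegral_add_left measurable_const, lintegral_const, Measure.restrict_apply_univ, Real.volume_Icc,
          lintegral_finset_sum _ (fun j _ => measurable_const.indicator (hVm j))]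
        have e1 : 2 * X - X = X := by ring
        rw [e1]
        refine add_le_add le_rfl (Finset.sum_le_sum fun j _ => ?_)
        refine (lintegral_indicator_const_le _ _).trans ?_
        gcongr
        exact Measure.restrict_le_self
    _ ≤ ENNReal.ofReal (D ^ 8 * 2 ^ 14 * X ^ (5 + ε)) + ∑ j ∈ Finset.range n,
          ENNReal.ofReal (D ^ 8 * 2 ^ 14 * |Cf j| * X ^ (5 + ε)) := by
        refine add_le_add ?_ (Finset.sum_le_sum fun j hj => ?_)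
        · rw [← ENNReal.ofReal_mul (hd0 0)]
          refine ENNReal.ofReal_le_ofReal ?_
          rw [hdj]
          have e1 : X ^ (8 * θ 0) * X = X ^ (8 * θ 0 + 1) := by
            rw [Real.rpow_add hX0, Real.rpow_one]
          have e2 : D ^ 8 * (2 ^ (8 * θ 0) * X ^ (8 * θ 0)) * X = D ^ 8 * 2 ^ (8 * θ 0) * (X ^ (8 * θ 0) * X) := by ring
          rw [e2, e1]
          have e3 : X ^ (8 * θ 0 + 1) ≤ X ^ (5 + ε) := by
            refine hXε _ ?_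
            rw [hθv]
            push_cast
            linarith
          have e4 := h14 0 (Nat.zero_le n)
          have e5 : 0 < X ^ (8 * θ 0 + 1) := by positivity
          gcongr
        · refine (mul_le_mul_right (hvol j hj) _).trans ?_
          rw [← ENNReal.ofReal_mul (hd0 _)]
          refine ENNReal.ofReal_le_ofReal ?_
          rw [hdj]
          have hj' := Finset.mem_range.1 hj
          have e1 : X ^ (8 * θ (j + 1)) * X ^ (5 - 8 * θ j + δ) = X ^ (5 + 9 * δ) := by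
            rw [← Real.rpow_add hX0, hθs]
            congr 1
            ring
          have e2 : D ^ 8 * (2 ^ (8 * θ (j + 1)) * X ^ (8 * θ (j + 1))) * (|Cf j| * X ^ (5 - 8 * θ j + δ)) =
              D ^ 8 * 2 ^ (8 * θ (j + 1)) * |Cf j| * (X ^ (8 * θ (j + 1)) * X ^ (5 - 8 * θ j + δ)) := by ring
          rw [e2, e1]
          have e3 := hXε (5 + 9 * δ) le_rfl
          have e4 := h14 (j + 1) hj'
          gcongr
    _ = ENNReal.ofReal (D ^ 8 * 2 ^ 14 * (1 + ∑ j ∈ Finset.range n, |Cf j|) * X ^ (5 + ε)) := by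
        rw [← ENNReal.ofReal_sum_of_nonneg (fun j _ => by positivity), ← ENNReal.ofReal_add (by positivity)
          (Finset.sum_nonneg fun j _ => by positivity)]
        congr 1
        rw [← Finset.sum_mul, ← Finset.mul_sum]
        ring

/-- **the eighth mean of the supremum over the centres**, from the measure bounds for all levels and a pointwise bound with exponent below `2/3` -/
theorem eight_mean {E : ℝ × ℝ → ℝ → ℝ} {κ : ℝ} (hκ0 : 1 / 2 ≤ κ) (hκ : κ < 2 / 3)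
    (hsup : ∃ C : ℝ, ∀ R : ℝ, 1 ≤ R → ∀ c : ℝ × ℝ, |E c R| ≤ C * R ^ κ)
    (hmeas : ∀ θ ε : ℝ, 1 / 2 < θ → θ < 2 / 3 → 0 < ε → ∃ C : ℝ, ∀ X : ℝ, 1 ≤ X →
      volume {R : ℝ | R ∈ Icc X (2 * X) ∧ ∃ c : ℝ × ℝ, R ^ θ < |E c R|} ≤ ENNReal.ofReal (C * X ^ (5 - 8 * θ + ε)))
    {ε : ℝ} (hε : 0 < ε) : ∃ C : ℝ, ∀ X : ℝ, 1 ≤ X →
      ∫⁻ R in Icc 1 X, (⨆ c : ℝ × ℝ, ENNReal.ofReal |E c R|) ^ 8 ≤ ENNReal.ofReal (C * X ^ (5 + ε)) := by
  obtain ⟨C, hC, h⟩ := dyadic53 hκ0 hκ hsup hmeas hε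
  refine ⟨C * 2 ^ (5 + ε), fun X hX => ?_⟩
  exact dyad53 (F := sup8 E) hC (by linarith) (fun p => h _ (one_le_pow₀ (by norm_num))) hX

open Pool.Agent.Helper22.AE
open Pool.Agent.Helper22.AC (cntc all_centres)

/-- the eighth mean for an oval, from a pointwise bound with exponent below `2/3` -/
theorem oval_eight {H : ℝ → ℝ} (hH : IsSupp H) (h3 : ContDiff ℝ 3 H) {κ : ℝ} (hκ0 : 1 / 2 ≤ κ) (hκ : κ < 2 / 3)
    (hsup : ∃ C : ℝ, ∀ R : ℝ, 1 ≤ R → ∀ c : ℝ × ℝ, |cntc H c R - area H * R ^ 2| ≤ C * R ^ κ) {ε : ℝ} (hε : 0 < ε) :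
    ∃ C : ℝ, ∀ X : ℝ, 1 ≤ X →
      ∫⁻ R in Icc 1 X, (⨆ c : ℝ × ℝ, ENNReal.ofReal |cntc H c R - area H * R ^ 2|) ^ 8 ≤ ENNReal.ofReal (C * X ^ (5 + ε)) :=
  eight_mean (E := fun c R => cntc H c R - area H * R ^ 2) hκ0 hκ hsup
    (fun θ ε' h1 h2 hε' => all_centres hH h3 h1 h2 hε') hε

end Pool.Agent.Helper53.EM
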