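import Mathlib
import Pool.Agent.Helper22.D3.Fin38
import Pool.Agent.Helper76.MM.E1
import Pool.Agent.Helper92.DT.W4
import Pool.Agent.Helper22.OV.Shift
import Pool.Agent.Helper53.EM.Eight

/-!
# The circle problem for ovals: exponent `38/61 + ε` for every smooth oval and every centre, and exponent `1/2` in eighth mean over the radii
-/

set_option autoImplicit false
open MeasureTheory Real

namespace Pool.Agent.Helper53.EM.Ovals

/-- `H` is the support function of a convex domain with boundary of class `C⁷` and positive radius of curvature `H + H''`. -/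
def IsSupport (H : ℝ → ℝ) : Prop :=
  ContDiff ℝ 7 H ∧ Function.Periodic H (2 * π) ∧ ∀ t, 0 < H t + deriv (deriv H) t

/-- The number of integer points in `c + R · D`, where `D = {p | p.1 cos t + p.2 sin t ≤ H t for all t}`. -/
noncomputable def latticeCount (H : ℝ → ℝ) (c : ℝ × ℝ) (R : ℝ) : ℝ :=
  (Nat.card {k : ℤ × ℤ // ∀ t : ℝ, ((k.1 : ℝ) - c.1) * cos t + ((k.2 : ℝ) - c.2) * sin t ≤ R * H t} : ℝ)

/-- The area of `D`. -/
noncomputable def area (H : ℝ → ℝ) : ℝ :=
  (volume {p : ℝ × ℝ | ∀ t : ℝ, p.1 * cos t + p.2 * sin t ≤ H t}).toReal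

/-- The error: the number of integer points in `c + R · D` minus the area of `R · D`. -/
noncomputable def error (H : ℝ → ℝ) (c : ℝ × ℝ) (R : ℝ) : ℝ := latticeCount H c R - area H * R ^ 2

/-- For every oval `D` with support function `H` of class `C⁷` and every `ε > 0`: there is `C` such that for all `R ≥ 1` and all centres `c` the error is at
most `C R^(38/61 + ε)`; and there is `C` such that for all `X ≥ 1` the integral over `1 ≤ R ≤ X` of the eighth power of the supremum of the error over all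
centres is at most `C X^(5 + ε)`. -/
theorem result : ∀ H : ℝ → ℝ, IsSupport H → ∀ ε : ℝ, 0 < ε →
    (∃ C : ℝ, ∀ R : ℝ, 1 ≤ R → ∀ c : ℝ × ℝ, |error H c R| ≤ C * R ^ (38 / 61 + ε)) ∧
    ∃ C : ℝ, ∀ X : ℝ, 1 ≤ X →
      ∫⁻ R in Set.Icc 1 X, (⨆ c : ℝ × ℝ, ENNReal.ofReal |error H c R|) ^ 8 ≤ ENNReal.ofReal (C * X ^ (5 + ε)) := by
  intro H hH ε hε
  obtain ⟨h7, hp, hr⟩ := hH
  have h2 : ContDiff ℝ 2 H := h7.of_le (by norm_num)
  obtain ⟨v, hv⟩ := Pool.Agent.Helper22.OV.exists_shift h2 hp hr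
  have h7' := Pool.Agent.Helper22.OV.shf_smooth v h7
  have hmain : ∀ e : ℝ, 0 < e → ∃ C : ℝ, ∀ R : ℝ, 1 ≤ R → ∀ c : ℝ × ℝ,
      |Pool.Agent.Helper22.AC.cntc (Pool.Agent.Helper22.OV.shf H v) c R -
        Pool.Agent.Helper22.AE.area (Pool.Agent.Helper22.OV.shf H v) * R ^ 2| ≤ C * R ^ (38 / 61 + e) := fun e he =>
    Pool.Agent.Helper22.D3.main38 (Pool.Agent.Helper92.DT.wp4 fun e he B => Pool.Agent.Helper76.MM.M12 he B) hv h7' he
  have hshift : ∀ (c : ℝ × ℝ) (R : ℝ), Pool.Agent.Helper22.AC.cntc (Pool.Agent.Helper22.OV.shf H v) (c.1 - R * v.1, c.2 - R * v.2) R -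
        Pool.Agent.Helper22.AE.area (Pool.Agent.Helper22.OV.shf H v) * R ^ 2 = error H c R := by
    intro c R
    rw [Pool.Agent.Helper22.OV.cntc_shf, Pool.Agent.Helper22.OV.area_shf]
    rfl
  constructor
  · obtain ⟨C, hC⟩ := hmain ε hε
    refine ⟨C, fun R hR c => ?_⟩
    have h := hC R hR (c.1 - R * v.1, c.2 - R * v.2)
    rw [hshift] at h
    exact h
  · obtain ⟨C, hC⟩ := Pool.Agent.Helper53.EM.oval_eight hv (h7'.of_le (by norm_num)) (κ := 38 / 61 + 1 / 100) (by norm_num)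
      (by norm_num) (hmain (1 / 100) (by norm_num)) hε
    refine ⟨C, fun X hX => (lintegral_mono fun R => ?_).trans (hC X hX)⟩
    refine pow_le_pow_left' (iSup_le fun c => ?_) 8
    rw [← hshift c R]
    exact le_iSup (fun c => ENNReal.ofReal |Pool.Agent.Helper22.AC.cntc (Pool.Agent.Helper22.OV.shf H v) c R -
        Pool.Agent.Helper22.AE.area (Pool.Agent.Helper22.OV.shf H v) * R ^ 2|) (c.1 - R * v.1, c.2 - R * v.2)

end Pool.Agent.Helper53.EM.Ovals
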